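import Pool.Agent.Helper40.WD.Stmts

/-!
# Row COL of the sheet Helper40/WD
-/

set_option autoImplicit false

namespace Pool.Agent.Helper93.WD

open Pool.Agent.Helper40.WD

theorem st_COL (h1 : ST_HOF) : ST_COL := by
  intro m hm α hα x hcard hx
  classical
  have hm' : (1 : ℝ) ≤ m := by exact_mod_cast hm
  have hm0 : (0 : ℝ) < m := by linarith
  have hlpos : (0 : ℝ) < 64 * (m : ℝ) ^ (3 / 4 : ℝ) := by positivity
  let bad : α → Finset (Fin m → Bool) := fun a => Finset.univ.filter (fun e : Fin m → Bool =>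
    64 * (m : ℝ) ^ (3 / 4 : ℝ) < |∑ j, (if e j then (1 : ℝ) else -1) * x a j|)
  have hl2 : (64 * (m : ℝ) ^ (3 / 4 : ℝ)) ^ 2 / (128 * m) = 32 * Real.sqrt m := by
    have e1 : ((m : ℝ) ^ (3 / 4 : ℝ)) ^ 2 = m * Real.sqrt m := by
      rw [← Real.rpow_natCast, ← Real.rpow_mul hm0.le, Real.sqrt_eq_rpow]
      have : (m : ℝ) * (m : ℝ) ^ (1 / 2 : ℝ) = (m : ℝ) ^ (1 : ℝ) * (m : ℝ) ^ (1 / 2 : ℝ) := by
        rw [Real.rpow_one]
      rw [this, ← Real.rpow_add hm0]
      norm_num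
    rw [mul_pow, e1]
    field_simp
    ring
  have hbad : ∀ a, ((bad a).card : ℝ) ≤ 2 ^ m * (2 * Real.exp (-(32 * Real.sqrt m))) := by
    intro a
    have := h1 m (x a) (64 * (m : ℝ) ^ (3 / 4 : ℝ)) hm hlpos (hx a)
    rw [hl2] at this
    exact this
  have hexp : 128 * (m : ℝ) ^ 2 * Real.exp (-(32 * Real.sqrt m)) < 1 := by
    have hs : 0 < Real.sqrt m := Real.sqrt_pos.2 hm0
    have h2 := Real.pow_div_factorial_le_exp (32 * Real.sqrt m) (by positivity) 4
    have h3 : (32 * Real.sqrt m) ^ 4 = 1048576 * (m : ℝ) ^ 2 := by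
      have : Real.sqrt m ^ 4 = (m : ℝ) ^ 2 := by
        rw [show (4 : ℕ) = 2 * 2 from rfl, pow_mul, Real.sq_sqrt hm0.le]
      rw [mul_pow, this]
      norm_num
    rw [h3] at h2
    have h4 : (Nat.factorial 4 : ℝ) = 24 := by norm_num [Nat.factorial]
    rw [h4] at h2
    rw [Real.exp_neg, ← div_eq_mul_inv, div_lt_one (Real.exp_pos _)]
    have h5 : (0 : ℝ) < (m : ℝ) ^ 2 := by positivity
    refine lt_of_lt_of_le ?_ h2
    rw [lt_div_iff₀ (by norm_num)]
    nlinarith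
  have hU : ((Finset.univ.biUnion bad).card : ℝ) < 2 ^ m := by
    have a1 : ((Finset.univ.biUnion bad).card : ℝ) ≤ ((∑ a, (bad a).card : ℕ) : ℝ) := by
      exact_mod_cast Finset.card_biUnion_le
    have a2 : ((∑ a, (bad a).card : ℕ) : ℝ) ≤
        (Fintype.card α : ℝ) * (2 ^ m * (2 * Real.exp (-(32 * Real.sqrt m)))) := by
      push_cast
      calc ∑ a, ((bad a).card : ℝ) ≤ ∑ _a : α, 2 ^ m * (2 * Real.exp (-(32 * Real.sqrt m))) :=
            Finset.sum_le_sum fun a _ => hbad a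
        _ = _ := by rw [Finset.sum_const, nsmul_eq_mul, Finset.card_univ]
    have a3 : (Fintype.card α : ℝ) ≤ 64 * (m : ℝ) ^ 2 := by exact_mod_cast hcard
    have hP : (0 : ℝ) < 2 ^ m := by positivity
    have hE := Real.exp_pos (-(32 * Real.sqrt m))
    have a4 : (Fintype.card α : ℝ) * (2 ^ m * (2 * Real.exp (-(32 * Real.sqrt m)))) ≤
        64 * (m : ℝ) ^ 2 * (2 ^ m * (2 * Real.exp (-(32 * Real.sqrt m)))) :=
      mul_le_mul_of_nonneg_right a3 (by positivity)
    have a5 : 64 * (m : ℝ) ^ 2 * (2 ^ m * (2 * Real.exp (-(32 * Real.sqrt m)))) =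
        2 ^ m * (128 * (m : ℝ) ^ 2 * Real.exp (-(32 * Real.sqrt m))) := by ring
    have a6 : 2 ^ m * (128 * (m : ℝ) ^ 2 * Real.exp (-(32 * Real.sqrt m))) < 2 ^ m * 1 :=
      mul_lt_mul_of_pos_left hexp hP
    linarith
  have hex : ∃ e : Fin m → Bool, e ∉ Finset.univ.biUnion bad := by
    by_contra h
    push Not at h
    have h7 : Finset.univ.biUnion bad = Finset.univ := Finset.eq_univ_iff_forall.2 h
    rw [h7, Finset.card_univ] at hU
    simp at hU
  obtain ⟨e, he⟩ := hex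
  refine ⟨fun i => if e i then (1 : ℝ) else -1, fun i => ?_, fun a => ?_⟩
  · by_cases h : e i = true
    · left; simp [h]
    · right; simp [h]
  · by_contra h
    push Not at h
    apply he
    rw [Finset.mem_biUnion]
    exact ⟨a, Finset.mem_univ _, Finset.mem_filter.2 ⟨Finset.mem_univ _, h⟩⟩

end Pool.Agent.Helper93.WD
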